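import Pool.Agent.Work.MP_8f87b2_h54.JVmj

/-!
# MP_8f87b2_co: the windows A, A0, T against the mirrored pair gadgets `JVm = Is9M nil nil S`
-/

set_option autoImplicit false

namespace Pool.OddHC

open Finset Equiv BinaryTree Pool.Agent.Work.MP_8f87b2_co

open H1

variable {k : ℕ} {S : BinaryTree Unit} {F F' : Set (Cyc k)} {g g' : DG k}

theorem JVM.cont6 {v w : X k} (hv : v.1 = (S △ .nil) △ .nil) (e : TT (TT w) = v) :
    cont w.1 = raise (raise (cont S)) := by
  have e3 : cont w.1 = cont v.1 := by rw [← e, cont_TT, cont_TT]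
  rw [e3, cont_three hv]

/-- **I-A-JVm** -/
theorem TyA.inner_JVm (h : TyA F g) (h' : Is9M .nil .nil S F' g') (hS : JVw S)
    (hb : ∀ c ∈ F, 1 ∈ contc c) (hh : ∀ c ∈ F, ∀ d ∈ F', htc c ≤ htc d) {a : X k × X k}
    (ha : a ∈ g.arcs) : ∀ w ∈ innA a, w ∉ g'.B := by
  intro w hw hw'
  have h1 := h.one hb ha w hw
  have hone := hS.one
  have hS3 := hS.ht3
  have hsupS : (cont S).sup = ht S := (OddHC.ht_eq S).symm
  have n3 : 1 ∉ raise (raise (cont S)) := by
    rw [one_raise_iff (by rw [sup_raise]; omega), one_raise_iff (by omega)]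
    exact hone
  have hof := h.inner_of ha (w := w)
  rcases JVM.cases9 h' hw' with e | e | e | e | e | e | ⟨⟨v, e, e1⟩, _⟩ | ⟨Z, e⟩ | ⟨Z, e⟩
  · refine hof (Or.inr (Or.inl ⟨false :: wd S, ?_⟩)) hw
    rw [e, wd_node, wd_node]; simp [wd]
  · rw [e, cont_app, Multiset.mem_add] at h1
    rcases h1 with h1 | h1
    · exact hone h1
    · revert h1
      decide
  · -- word `(S())`
    obtain ⟨d, hd, e1⟩ := JVM.exF h'
    obtain ⟨q, B1, H, s, B, w0, hG, rfl, rfl⟩ := h
    obtain ⟨i, hi, e2⟩ := arcs_cases ha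
    rw [e2] at hw
    obtain rfl : w = _ := hw
    have h2 := hG.cont0 w0
    have h3 : 1 ∈ cont (gX q B1 H s B w0 0).1 := hb _ rfl
    rw [h2, Multiset.mem_add, Multiset.mem_singleton] at h3
    have h4 : 1 ∈ cont (gR B1 H s B) := by
      rcases h3 with h3 | h3
      · exact h3
      · omega
    have h5 := hh _ rfl d hd
    rw [e1, htc_cyc, OddHC.ht_eq (gX q B1 H s B w0 0).1, h2, Multiset.sup_add] at h5
    refine NodeG.not_four hG w0 hi hS h4 ?_ e
    rw [OddHC.ht_eq]
    exact le_trans le_sup_left h5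
  · rw [cont_three e] at h1
    exact n3 h1
  · refine hof (Or.inr (Or.inl ⟨wd S ++ [false], ?_⟩)) hw
    rw [e, wd_node, wd_node]; simp [wd]
  · refine hof (Or.inl ⟨true :: (wd S ++ [false]), ?_⟩) hw
    rw [e, wd_node, wd_node]; simp [wd]
  · rw [JVM.cont6 e e1] at h1
    exact n3 h1
  · refine hof (Or.inl ⟨wd Z, ?_⟩) hw
    rw [e, wd_node]; simp [wd]
  · refine hof (Or.inr (Or.inr (Or.inl ⟨wd Z, ?_⟩))) hw
    rw [e, wd_app, wd_node]; simp [wd]

/-- the inner words of both orientations start with `1^3` and end with `0^3`: only words 3 and 6 -/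
theorem H1.InnP.onlyM {g0 : ℕ} {w : X k} (h : InnP g0 w.1) (h' : Is9M .nil .nil S F' g')
    (hw : w ∈ g'.B) :
    w.1 = (S △ .nil) △ .nil ∨ ∃ v : X k, v.1 = (S △ .nil) △ .nil ∧ TT (TT w) = v := by
  have g3 := h.g3
  rcases JVM.cases9 h' hw with e | e | e | e | e | e | ⟨e, _⟩ | ⟨Z, e⟩ | ⟨Z, e⟩
  · exfalso
    have h1 := h.start (n := 2) (v := false :: wd S) (by
      rw [e, wd_node, wd_node]; simp [wd])
    omega
  · exfalso
    have h1 := h.stop (n := 2) (v := wd S ++ [true]) (by
      rw [e, wd_app, wd_node, wd_node]; simp [wd])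
    omega
  · exfalso
    have h1 := h.stop (n := 2) (v := true :: wd S) (by
      rw [e, wd_node, wd_app, wd_node]; simp [wd])
    omega
  · exact Or.inl e
  · exfalso
    have h1 := h.start (n := 2) (v := wd S ++ [false]) (by
      rw [e, wd_node, wd_node]; simp [wd])
    omega
  · exact absurd e h.not_first
  · exact Or.inr e
  · exact absurd e h.not_first
  · exact absurd e h.not_last

/-- **A0 - JVm** (one inner word) -/
theorem HM.NodeM.not_JVm {q : ℕ} {R B Sr : BinaryTree Unit} (h : HM.NodeM k q R B Sr) (w0 : X k)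
    {i : ℕ} (hi : i ∈ [0, 1, 3, 6, 8, 9]) (h' : Is9M .nil .nil S F' g') (hS : JVw S)
    (hSm : JVw (Tsq.mir S)) (hh : ht R ≤ ht S) : Tsq.mirX (TT (wX R B Sr q w0 i)) ∉ g'.B := by
  intro hw
  have hin := (h.inn w0 hi).2
  obtain ⟨c1, c2, c3⟩ := h.winn w0 hi (w := Tsq.mirX (TT (wX R B Sr q w0 i))) (Or.inr rfl)
  have h36 := hin.onlyM h' hw
  set w := Tsq.mirX (TT (wX R B Sr q w0 i)) with hwd
  have hone := hS.one
  have hS3 := hS.ht3
  have htop := h.top
  have hsupS : (cont S).sup = ht S := (OddHC.ht_eq S).symm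
  have hsupR : (cont R).sup = ht R := (OddHC.ht_eq R).symm
  have hce : cont w.1 = raise (raise (cont S)) := by
    rcases h36 with e | ⟨v, e, e1⟩
    · exact cont_three e
    · exact JVM.cont6 e e1
  rw [c1] at hce
  have hno1 : (cont (W R (ch (q + 1)) B Sr i)).count 1 = 0 := by
    rw [hce, count_raise2 (by omega)]
    exact Multiset.count_eq_zero_of_notMem hone
  have hsup : ht (W R (ch (q + 1)) B Sr i) = ht S + 2 := by
    rw [OddHC.ht_eq, hce, sup_raise, sup_raise, hsupS]
  have h00 : OddHC.ht (BinaryTree.nil : BinaryTree Unit) = 0 := rfl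
  have r0 : (raise (cont (BinaryTree.nil : BinaryTree Unit))).count 1 = 1 := by
    rw [cont_nil, raise_zero]; rfl
  have hQ := ch_ht (q + 1)
  have hQ2 := ch_ht (q + 2)
  simp only [List.mem_cons, List.not_mem_nil, or_false] at hi
  rcases hi with rfl | rfl | rfl | rfl | rfl | rfl
  · simp only [W, ht_app, ht_node, hQ, h00] at hsup
    omega
  · simp only [W, ht_app, ht_node, hQ, h00] at hsup
    omega
  · -- word 3 of the window has a part 1
    simp only [W, cont_node, cont_nil, add_zero] at hno1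
    rw [count_raise_lt (by
      rw [cont_app, Multiset.sup_add, hsupR]
      exact lt_of_lt_of_le (show 1 < ht R by omega) le_sup_left), cont_app, Multiset.count_add,
      cont_node, Multiset.count_add, r0] at hno1
    omega
  · simp only [W, ht_app, ht_node, hQ, h00] at hsup
    omega
  · simp only [W, cont_app, cont_node, Multiset.count_add, r0] at hno1
    omega
  · -- word 9
    have hW9 : cont (W R (ch (q + 1)) B Sr 9) = raise (raise (cont R)) + {q + 1} := by
      simp only [W, cont_node, cont_nil, add_zero, ch_cont]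
    have hq1 : 1 ≤ q := by
      by_contra hq
      obtain rfl : q = 0 := by omega
      rw [hW9, Multiset.count_add] at hno1
      simp at hno1
    simp only [W, ht_app, ht_node, hQ, h00] at hsup
    have hx : ∀ {j : ℕ}, j < 20 → (wX R B Sr q w0 j).1 = W R (ch (q + 1)) B Sr j :=
      fun hj => wX_eq h.dat h.size w0 hj
    rcases h36 with e | ⟨v, e, e1⟩
    · -- `T w` is the mirror image of word 9
      have key : Key q R S := ⟨hS, hq1, htop, h.part, by omega, by rw [← hce, hW9]⟩
      have h5 : TT w = Tsq.mirX (wX R B Sr q w0 9) := Tsq.TT_mir _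
      have h6 : wd (TT w).1 = List.replicate (q + 1) true ++ (List.replicate (q + 1) false ++
          (true :: true :: (((wd R).map not).reverse ++ [false, false]))) := by
        rw [h5]
        change wd (Tsq.mir (wX R B Sr q w0 9).1) = _
        rw [hx (by norm_num), Tsq.wd_mir]
        simp only [W, wd_node, wd_ch]
        simp [wd]
      exact key.not_three e h6
    · -- `T ((mir S))` is word 9
      have key : Key q R (Tsq.mir S) := ⟨hSm, hq1, htop, h.part, by rw [OddHC.ht_mir]; omega, by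
        rw [HM.cont_mir, ← hce, hW9]⟩
      have h5 : TT w = Tsq.mirX (wX R B Sr q w0 9) := Tsq.TT_mir _
      have h7 : TT (Tsq.mirX (TT (TT w))) = Tsq.mirX (TT w) := Tsq.TT_mir _
      have h8 : Tsq.mirX (TT w) = wX R B Sr q w0 9 := by
        rw [h5]
        exact Subtype.ext (Tsq.mir_mir _)
      rw [e1, h8] at h7
      have h9 : (Tsq.mirX v).1 = (Tsq.mir S △ .nil) △ .nil := by
        change Tsq.mir v.1 = _
        apply wd_ext
        rw [Tsq.wd_mir, e]
        simp only [wd_node, Tsq.wd_mir]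
        simp [wd]
      have h6 : wd (TT (Tsq.mirX v)).1 = (true :: true :: (wd R ++ [false, false])) ++
          (List.replicate (q + 1) true ++ List.replicate (q + 1) false) := by
        rw [h7, hx (by norm_num)]
        simp only [W, wd_node, wd_ch]
        simp [wd]
      exact key.not_six h9 h6

open HM in
/-- **I-A0-JVm** -/
theorem TyA0.inner_JVm (h : TyA0 F g) (h' : Is9M .nil .nil S F' g') (hS : JVw S)
    (hSm : JVw (Tsq.mir S)) (hh : ∀ c ∈ F, ∀ d ∈ F', htc c ≤ htc d) :
    ∀ p ∈ g.arcs, ∀ w ∈ innA p, w ∉ g'.B := by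
  obtain ⟨q, R, B, Sr, w0, h1, rfl, h2⟩ := h.inn
  intro p hp w hw
  obtain ⟨i, hi, e⟩ := h2 p hp
  rw [e] at hw
  obtain rfl : w = _ := hw
  obtain ⟨d, hd, e1⟩ := JVM.exF h'
  refine h1.not_JVm w0 hi h' hS hSm ?_
  have h3 := hh _ rfl d hd
  rw [e1, htc_cyc, h1.word w0 (by norm_num)] at h3
  have h4 : ht (w20M (Tsq.mir R) (pc (q + 1)) (Tsq.mir B) (Tsq.mir Sr) 0) = ht R := by
    rw [← h1.word w0 (by norm_num)]
    change ht (Tsq.mir (wX R B Sr q w0 0).1) = _
    rw [OddHC.ht_mir, wX_eq h1.dat h1.size w0 (by norm_num)]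
    have hQ := ch_ht (q + 1)
    have h00 : OddHC.ht (BinaryTree.nil : BinaryTree Unit) = 0 := rfl
    have := h1.top
    simp only [W, ht_app, ht_node, hQ, h00]
    omega
  rw [h4] at h3
  exact h3

/-- **I-T-JVm** -/
theorem TyT.inner_JVm (h : TyT F g) (h' : Is9M .nil .nil S F' g') (hone : 1 ∉ cont S)
    (hS3 : 3 ≤ ht S) : ∀ p ∈ g.arcs, ∀ w ∈ innA p, w ∉ g'.B := by
  intro p hp w hw hw'
  obtain ⟨b, m, a, i, hm, e0⟩ := h.innerm p hp w hw
  have hlv : ∀ n : ℕ, cont (lv n .nil) = Multiset.replicate n 1 := by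
    intro n
    induction n with
    | zero => rfl
    | succ n ih =>
      change cont (BinaryTree.nil △ lv n .nil) = _
      rw [cont_node, ih, cont_nil, raise_zero, Multiset.replicate_succ]
      rfl
  have h1 : 1 ∈ cont w.1 := by
    obtain ⟨m, rfl⟩ : ∃ n, m = n + 1 := ⟨m - 1, by omega⟩
    rw [e0, Y3_eq, cont_node, Multiset.mem_add]
    left
    unfold t3F
    rw [cont_app, hlv, cont_node, cont_nil, raise_zero, add_zero]
    unfold raise
    refine Multiset.mem_cons_of_mem ?_
    have e2 : (Multiset.replicate (m + 1) 1 + ({1} : Multiset ℕ)).sup = 1 := by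
      apply le_antisymm
      · apply Multiset.sup_le.2
        intro x hx
        rcases Multiset.mem_add.1 hx with h | h
        · exact le_of_eq (Multiset.eq_of_mem_replicate h)
        · exact le_of_eq (Multiset.mem_singleton.1 h)
      · exact Multiset.le_sup (by simp)
    rw [← Multiset.count_pos, e2, Multiset.count_erase_self, Multiset.count_add,
      Multiset.count_replicate_self, Multiset.count_singleton_self]
    omega
  have hsupS : (cont S).sup = ht S := (OddHC.ht_eq S).symm
  have n3 : 1 ∉ raise (raise (cont S)) := by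
    rw [one_raise_iff (by rw [sup_raise]; omega), one_raise_iff (by omega)]
    exact hone
  have hlen := len_Y3 (b := b) (m := m) (a := a) i
  have hlast := lastB_Y3 (b := b) (m := m) (a := a) i
  have hlight := light_Y3 (b := b) (m := m) (a := a) i
  have hfb := fb_Y3 (b := b) (m := m) (a := a) i
  have hhd : t3hd (t3Y b m a i) = t3F m := rfl
  rw [← e0] at hlen hlast hlight hfb hhd
  rcases JVM.cases9 h' hw' with e | e | e | e | e | e | ⟨⟨v, e, e1⟩, _⟩ | ⟨Z, e⟩ | ⟨Z, e⟩
  · rw [e] at hhd
    obtain ⟨m, rfl⟩ : ∃ n, m = n + 1 := ⟨m - 1, by omega⟩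
    have : t3hd ((BinaryTree.nil △ BinaryTree.nil) △ S) = BinaryTree.nil △ BinaryTree.nil := rfl
    rw [this] at hhd
    unfold t3F at hhd
    have e3 : app (lv (m + 1) .nil) (BinaryTree.nil △ BinaryTree.nil) =
        BinaryTree.nil △ app (lv m .nil) (BinaryTree.nil △ BinaryTree.nil) := rfl
    rw [e3] at hhd
    have := (node_inj hhd).2
    cases m <;> simp [lv, app] at this
  · rw [e, lastI_app (by simp)] at hlight
    exact absurd hlight (by simp [lastI, light, isNil])
  · rw [e] at hlen
    simp [len] at hlen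
  · rw [e] at hlen
    simp [len] at hlen
  · rw [e] at hlen
    simp [len] at hlen
  · rw [e] at hfb
    simp [fb, isNil] at hfb
  · rw [JVM.cont6 e e1] at h1
    exact n3 h1
  · rw [e] at hfb
    simp [fb, isNil] at hfb
  · rw [e, lastB_app (by simp)] at hlast
    simp [lastB, isNil] at hlast

end Pool.OddHC
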