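import Pool.Agent.Work.MP_8f87b2_h54.JVm
import Pool.Agent.Work.MP_8f87b2_h21.JVi
import Pool.Agent.Work.MP_8f87b2_h33.InJV
import Pool.Agent.Work.MP_8f87b2_h10.JVA
import Pool.Agent.Work.MP_8f87b2_h10.JVT
import Pool.Agent.Work.MP_8f87b2_h10.EdJ

/-!
# MP_8f87b2_co: rows of the matrix for the mirrored pair gadgets `JVm = Is9M nil nil S`

I-JVm-{A, T, Ed, H, JG, JV, JVm}, I-JV-JVm, I-{A, A0, T}-JVm.
-/

set_option autoImplicit false

namespace Pool.OddHC

open Finset Equiv BinaryTree Pool.Agent.Work.MP_8f87b2_co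

variable {k : ℕ} {F F' : Set (Cyc k)} {g g' : DG k} {S S' : BinaryTree Unit}

open SRun

/-! ### The words -/

/-- the words of a mirrored pair gadget -/
theorem JVM.cases9 (h : Is9M .nil .nil S F g) {w : X k} (hw : w ∈ g.B) :
    w.1 = (.nil △ .nil) △ S ∨ w.1 = app S ((.nil △ .nil) △ .nil) ∨
    w.1 = (app S (.nil △ .nil)) △ .nil ∨ w.1 = (S △ .nil) △ .nil ∨ w.1 = (.nil △ S) △ .nil ∨
    w.1 = .nil △ (S △ .nil) ∨
    ((∃ v : X k, v.1 = (S △ .nil) △ .nil ∧ TT (TT w) = v) ∧ w.1 = xTM S △ .nil) ∨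
    (∃ Z, w.1 = .nil △ Z) ∨ ∃ Z, w.1 = app Z (.nil △ .nil) := by
  obtain ⟨u, h1, rfl, rfl⟩ := h
  obtain ⟨i, hi, rfl⟩ := mem_gad9M.1 hw
  obtain ⟨a3, a4, a5⟩ := h1.arcs
  have e := h1.word i hi
  have e3 : (u 3).1 = (S △ .nil) △ .nil := h1.word 3 (by norm_num)
  interval_cases i
  · exact Or.inl e
  · exact Or.inr (Or.inl e)
  · exact Or.inr (Or.inr (Or.inl e))
  · exact Or.inr (Or.inr (Or.inr (Or.inl e)))
  · exact Or.inr (Or.inr (Or.inr (Or.inr (Or.inl e))))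
  · exact Or.inr (Or.inr (Or.inr (Or.inr (Or.inr (Or.inl e)))))
  · refine Or.inr (Or.inr (Or.inr (Or.inr (Or.inr (Or.inr (Or.inl ⟨⟨u 3, e3, a3⟩, ?_⟩))))))
    have e' : (u 6).1 = app (xTM S) .nil △ .nil := e
    rw [e', H1.app_nil]
  · exact Or.inr (Or.inr (Or.inr (Or.inr (Or.inr (Or.inr (Or.inr (Or.inl
      ⟨app (xTM S) .nil, e⟩)))))))
  · exact Or.inr (Or.inr (Or.inr (Or.inr (Or.inr (Or.inr (Or.inr (Or.inr
      ⟨app (xTM S) .nil, e⟩)))))))

/-- the height of the group -/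
theorem JVM.exF (h : Is9M .nil .nil S F g) : ∃ d ∈ F, htc d = ht S := by
  have h2 := h.htp'
  obtain ⟨u, h1, rfl, rfl⟩ := h
  exact ⟨_, Or.inl rfl, h2 _ (Or.inl rfl)⟩

/-- the content of the inner word 3 -/
theorem JVM.cont3 {y : X k} (h : Iv S 3 y) : OddHC.cont y.1 = raise (raise (OddHC.cont S)) := by
  have e : w9LM .nil .nil S (xTM S) 3 = (S △ .nil) △ .nil := rfl
  rw [h.cont, e, cont_node, cont_node, cont_nil, add_zero, add_zero]

/-- an inner word of a mirrored gadget is `NIS`, or inner word 3 -/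
theorem JVM.nis3 (h : Is9M .nil .nil S F g) (h3 : 3 ≤ OddHC.ht S) (h1 : (OddHC.cont S).count 1 = 0) :
    ∀ p ∈ g.arcs, ∀ y ∈ innA p, NIS y ∨ Iv S 3 y := by
  intro p hp y hy
  obtain ⟨i, hi⟩ := h.iv p hp y hy
  by_cases e : i = 3
  · subst e
    exact Or.inr hi
  · exact Or.inl (Or.inl (hi.is e (Multiset.count_eq_zero.1 h1) h3))

theorem JVM.one3 (h3 : 3 ≤ OddHC.ht S) (h1 : (OddHC.cont S).count 1 = 0) {M : Multiset ℕ}
    (hM : M = raise (raise (OddHC.cont S))) : M.count 1 = 0 := by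
  rw [ht_eq] at h3
  rw [hM, count_raise 1 (by rw [sup_raise]; omega) (by rw [sup_raise]; omega),
    count_raise 1 (by omega) (by omega), h1]

/-! ### JVm against A, T, Ed -/

open JVi in
theorem JVM.n34 {i : ℕ} {y : X k} (h : Iv S i y) (hi : i ≠ 5) (h1 : 1 ∉ OddHC.cont S)
    (h3 : 3 ≤ OddHC.ht S) : N101 (wd y.1) := by
  obtain ⟨a, b, _, hs, e⟩ := h.sd h1 h3
  rcases h.hi with rfl | rfl | rfl
  · exact N101.of_D2 (h.d2 h1 h3)
  · obtain ⟨⟨x, r, hr⟩, _⟩ := hs.brev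
    have h4 : N101 b.reverse := N101.of_D2 hs.db.rev
    rw [hr] at h4
    have h5 : wd y.1 = (a.reverse ++ [true, true]) ++ false :: false :: (true :: false :: false ::
        (x :: r)) := by
      rw [e, hr]
      simp [mid9]
    rw [h5]
    exact N101.app00 (N101.of_D2 (hs.da.rev.app (D2.two true _ D2.nil))) h4.tail.tail.cons_tff
  · exact absurd rfl hi

open JVi in
/-- **I-JVm-A**: windows with a part 1, no other condition -/
theorem Is9M.inner_A (h : Is9M .nil .nil S F g) (h1 : 1 ∉ OddHC.cont S) (h3 : 3 ≤ OddHC.ht S)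
    (h' : TyA F' g') (hm : ∀ c ∈ F', 1 ≤ (contc c).count 1) :
    ∀ p ∈ g.arcs, ∀ w ∈ innA p, w ∉ g'.B := by
  intro p hp w hw hw'
  obtain ⟨j, hv⟩ := h.iv p hp w hw
  obtain ⟨q, B1, H, s, B, w0, hn, rfl, rfl⟩ := h'
  obtain ⟨i, hi, e⟩ := mem_gad20.1 hw'
  have hbig := hn.big
  have hR1 : 1 ∈ cont (H1.gR B1 H s B) := by
    have h1 := hm _ rfl
    change 1 ≤ (cont (H1.gX q B1 H s B w0 0).1).count 1 at h1
    rw [hn.cont0, Multiset.count_add, Multiset.count_singleton, if_neg (by omega)] at h1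
    exact Multiset.count_pos.1 (by omega)
  obtain ⟨p', s', e2⟩ := ne_W35 hn hR1 (H1.ch (q + 1)) hi
  rw [← hn.word w0 hi, e] at e2
  by_cases h5 : j = 5
  · subst h5
    obtain ⟨a, b, _, hs, e3⟩ := hv.sd h1 h3
    obtain ⟨⟨x, r, hr⟩, _⟩ := hs.brev
    have h4 : N101 b.reverse := N101.of_D2 hs.db.rev
    have e4 : (a.reverse ++ [true]) ++ true :: false :: true :: (false :: b.reverse) =
        p' ++ true :: false :: true :: (true :: s') := by
      rw [← e2, e3]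
      simp [mid9]
    have k1 : N101 ((a.reverse ++ [true]) ++ [true, false]) := by
      have := (N101.of_D2 (hs.da.rev.app (D2.two true _ D2.nil))).end0
      simpa using this
    have k2 : N101 (false :: true :: (false :: b.reverse)) := by
      rw [hr] at h4 ⊢
      exact h4.tail.cons_tff.cons_f
    have := (uniq3 e4 k1 k2).2
    simp at this
  · exact JVM.n34 hv h5 h1 h3 p' (true :: s') e2

/-- **I-JVm-T** -/
theorem Is9M.inner_T {P Q : BinaryTree Unit} (h : Is9M P Q S F g) (h4 : 4 ≤ ht S) (h' : TyT F' g')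
    (hle : ∀ c ∈ F, ∀ d ∈ F', htc c ≤ htc d) : ∀ p ∈ g.arcs, ∀ w ∈ innA p, w ∉ g'.B := by
  exfalso
  have h3 := h'.ht3
  have h5 := h.htp'
  obtain ⟨u, hu⟩ : ∃ u, u ∈ F := by
    obtain ⟨w, h1, rfl, rfl⟩ := h
    exact ⟨_, Or.inl rfl⟩
  obtain ⟨b, m, a, w0', h1', rfl, rfl⟩ := h'
  have e1 := h5 _ hu
  have e2 := h3 _ rfl
  have e3 := hle _ hu _ rfl
  omega

/-- the words of `Is9M nil nil S`, `S` with a part 2 or 3 which is not the largest one -/
theorem Is9M.c23 (h : Is9M .nil .nil S F g) (h2 : C23 S) (h4 : 4 ≤ OddHC.ht S) :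
    ∀ w ∈ g.B, C23 w.1 := by
  have hS0 : S ≠ .nil := ne_of_ht (h := 3) (by omega)
  have hH := H4_of h4
  have hX : C23 (xTM S) ∧ H4 (xTM S) := by
    have hm0 := mir_ne hS0
    obtain ⟨q1, q2⟩ := ht_sq hm0
    have hc := HM.sq_cont hm0
    have hmc : cont (Tsq.mir S) = cont S := HM.cont_mir _
    have h5 : H4 (Tsq.sq (Tsq.mir S)).1 := H4_of (by rw [q1, ht_mir]; exact h4)
    have e1 : cont (xTM S) = cont (xT (Tsq.mir S)) := HM.cont_mir _
    have key : C23 (xT (Tsq.mir S)) ∧ H4 (xT (Tsq.mir S)) := by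
      rw [xT_sq]
      refine ⟨?_, h5.nl _⟩
      unfold C23 at h2
      rw [← hmc, ← hc, Multiset.mem_add, Multiset.mem_add] at h2
      rcases h2 with (h2 | h2) | (h2 | h2)
      · exact C23.nr (Or.inl h2) _
      · exact C23.nl (Or.inl h2) h5 _
      · exact C23.nr (Or.inr h2) _
      · exact C23.nl (Or.inr h2) h5 _
    unfold C23 H4 at key ⊢
    rw [e1]
    exact key
  intro w hw
  obtain ⟨i, hi, e, _⟩ := h.words w hw
  rw [e]
  interval_cases i
  · exact h2.nr _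
  · exact h2.al _
  · exact (h2.al _).nl (hH.al _) _
  · exact (h2.nl hH _).nl (hH.nl _) _
  · exact (h2.nr _).nl (hH.nr _) _
  · exact (h2.nl hH _).nr _
  · exact (hX.1.al _).nl (hX.2.al _) _
  · exact (hX.1.al _).nr _
  · exact (hX.1.al _).al _

/-- **W-Ed-JVm** -/
theorem Is9M.disj_Ed (h : Is9M .nil .nil S F g) (h2 : C23 S) (h4 : 4 ≤ OddHC.ht S)
    (h' : TyEd F' g') : ∀ w ∈ g.B, w ∉ g'.B :=
  fun w hw => C23.not_Ed h' (h.c23 h2 h4 w hw)

/-- **I-JVm-Ed** -/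
theorem Is9M.inner_Ed (h : Is9M .nil .nil S F g) (h2 : C23 S) (h4 : 4 ≤ OddHC.ht S)
    (h' : TyEd F' g') : ∀ p ∈ g.arcs, ∀ w ∈ innA p, w ∉ g'.B := by
  refine inner_Ed_of (h.c23 h2 h4) ?_ h'
  obtain ⟨w, h1, rfl, rfl⟩ := h
  intro a ha
  have ha' : a = (w 6, w 3) ∨ a = (w 7, w 4) ∨ a = (w 8, w 5) := ha
  rcases ha' with rfl | rfl | rfl
  · exact mem_gad9M.2 ⟨6, by norm_num, rfl⟩
  · exact mem_gad9M.2 ⟨7, by norm_num, rfl⟩
  · exact mem_gad9M.2 ⟨8, by norm_num, rfl⟩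

/-! ### JVm against the one soliton gadgets -/

/-- a word with the content of `((S))` in a one soliton gadget: only `((B) R)` -/
theorem JVM.T3_JG (h3 : 3 ≤ OddHC.ht S) (h1 : (OddHC.cont S).count 1 = 0)
    (h2 : 2 ≤ J.c3 (OddHC.cont S)) {y : X k} (c0 : OddHC.cont y.1 = raise (raise (OddHC.cont S)))
    {n : ℕ} (hn : 1 ≤ n) {B : Finset (X k)} {P U M : Set (ZMod (2 * n + 1) → ℕ)}
    (h' : J.JG n B P U M) (hB : y ∈ B) : 3 ∈ OddHC.cont S ∧ J.c3 (OddHC.cont S) ≤ 2 ∧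
      ∃ (t : ℕ) (R : BinaryTree Unit), y.1 = (J.b2 (t + 1) △ R) △ .nil := by
  have c1 := JVM.one3 h3 h1 c0
  have c2 : 2 ≤ J.c3 (OddHC.cont y.1) := by
    rw [c0]
    exact le_trans h2 (le_trans (NTr.c3_raise_ge _) (NTr.c3_raise_ge _))
  have r2 : ∀ b : ℕ, J.c3 (Multiset.replicate b 2) = 0 := fun b =>
    J.c3_two (fun p hp => le_of_eq (Multiset.eq_of_mem_replicate hp))
  have r1 : ∀ s : ℕ, J.c3 ({s} : Multiset ℕ) ≤ 1 := by
    intro s
    unfold J.c3
    exact le_trans (Multiset.countP_le_card _ _) (by simp)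
  have r0 : J.c3 ({1} : Multiset ℕ) = 0 := rfl
  obtain ⟨s, b, hs3, e | e | e | ⟨e, _⟩ | ⟨e, t, u, D, _, ew⟩⟩ := h'.cases2 hn hB
  · rw [e, J.c3_add, r2] at c2
    have := r1 s
    omega
  · rw [e, J.c3_add, J.c3_add, r2, r0] at c2
    have := r1 s
    omega
  · rw [e, J.c3_add, J.c3_add, J.c3_add, r2, r0] at c2
    have := r1 s
    omega
  · rw [e, Multiset.count_add, Multiset.count_singleton_self] at c1
    omega
  · have m3 : 3 ∈ OddHC.cont y.1 := by
      rw [e]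
      simp
    rw [c0] at m3
    refine ⟨?_, ?_, t, J.RR u D 0, ew⟩
    · rw [ht_eq] at h3
      rcases H1.raise_mem m3 with m4 | m4
      · rw [sup_raise] at m4
        omega
      · rcases H1.raise_mem m4 with m5 | m5
        · omega
        · exact m5
    · have h5 : J.c3 (OddHC.cont y.1) ≤ 2 := by
        rw [e, J.c3_add, J.c3_add, r2]
        have := r1 s
        have := r1 3
        omega
      rw [c0] at h5
      exact le_trans (le_trans (NTr.c3_raise_ge _) (NTr.c3_raise_ge _)) h5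

/-- **I-JVm-J3, I-JVm-JM, ..**: all gadgets of the one soliton classes, general `S` -/
theorem Is9M.inner_JG (h : Is9M .nil .nil S F g) (h3 : 3 ≤ OddHC.ht S)
    (h1 : (OddHC.cont S).count 1 = 0) (h2 : 2 ≤ J.c3 (OddHC.cont S))
    (hT : 3 ∈ OddHC.cont S → J.c3 (OddHC.cont S) = 2 → ∀ y : X k, Iv S 3 y →
      ∀ (t : ℕ) (R : BinaryTree Unit), y.1 ≠ (J.b2 (t + 1) △ R) △ .nil)
    {n : ℕ} (hn : 1 ≤ n) {B : Finset (X k)} {P U M : Set (ZMod (2 * n + 1) → ℕ)}
    (h' : J.JG n B P U M) : ∀ p ∈ g.arcs, ∀ w ∈ innA p, w ∉ B := by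
  intro p hp w hw hB
  rcases JVM.nis3 h h3 h1 p hp w hw with h4 | h4
  · exact h4.not_mem (JG_njs hn h') hB
  · obtain ⟨k1, k2, t, R, k3⟩ := JVM.T3_JG h3 h1 h2 (JVM.cont3 h4) hn h' hB
    exact hT k1 (by omega) w h4 t R k3

/-- **I-JVm-H**, `S` without part 3 (the edges without a TE phase: all big parts at least 5) -/
theorem Is9M.inner_H5 (h : Is9M .nil .nil S F g) (h3 : 3 ≤ OddHC.ht S)
    (h1 : (OddHC.cont S).count 1 = 0) (h2 : 2 ≤ J.c3 (OddHC.cont S)) (h5 : 3 ∉ OddHC.cont S)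
    (h' : Hole2.TyH F' g') : ∀ p ∈ g.arcs, ∀ w ∈ innA p, w ∉ g'.B := by
  obtain ⟨n, hn, P, U, M, h4⟩ := h'.jg
  exact h.inner_JG h3 h1 h2 (fun h6 => absurd h6 h5) hn h4

/-! ### JV and JVm against JV and JVm -/

/-- a word with the content of `((S))` which is a word of JV or JVm at `S'` -/
theorem JVM.meet (h' : Is9 .nil .nil S' F' g' ∨ Is9M .nil .nil S' F' g')
    (h3 : 3 ≤ OddHC.ht S) (h3' : 3 ≤ OddHC.ht S')
    (h1 : (OddHC.cont S).count 1 = 0) (h1' : (OddHC.cont S').count 1 = 0) {y : X k}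
    (c0 : OddHC.cont y.1 = raise (raise (OddHC.cont S))) (hB : y ∈ g'.B) :
    (OddHC.ht S' = OddHC.ht S + 2 ∧ (y.1 = app S' ((.nil △ .nil) △ .nil) ∨
        y.1 = (.nil △ .nil) △ S')) ∨
      (OddHC.ht S' = OddHC.ht S ∧ (y.1 = (S' △ .nil) △ .nil ∨ y.1 = xT S' △ .nil ∨
        y.1 = xTM S' △ .nil)) := by
  have c1 := JVM.one3 h3 h1 c0
  have hS : S' ≠ .nil := ne_of_ht (h := 2) (by omega)
  have hh : OddHC.ht y.1 = OddHC.ht S + 2 := by
    rw [ht_eq, c0, sup_raise, sup_raise, ← ht_eq]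
  have n0 : OddHC.ht (.nil : BinaryTree Unit) = 0 := rfl
  have bead : ∀ Z : BinaryTree Unit, 1 ∈ OddHC.cont (.nil △ Z) := by
    intro Z
    rw [cont_node, cont_nil, raise_zero]
    simp
  have beadr : ∀ Z : BinaryTree Unit, 1 ∈ OddHC.cont (app Z (.nil △ .nil)) := by
    intro Z
    rw [cont_app]
    exact Multiset.mem_add.2 (Or.inr (bead _))
  have up : ∀ Z : BinaryTree Unit, 1 ∈ OddHC.cont Z → 2 ≤ OddHC.ht Z →
      1 ∈ OddHC.cont (Z △ .nil) := by
    intro Z h5 h6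
    rw [cont_node, cont_nil, add_zero]
    rw [ht_eq] at h6
    rw [← Multiset.count_pos, count_raise 1 (by omega) (by omega)]
    exact Multiset.count_pos.2 h5
  have no : ∀ {t : BinaryTree Unit}, y.1 = t → 1 ∉ OddHC.cont t := by
    rintro t rfl
    exact Multiset.count_eq_zero.1 c1
  have hl : 2 ≤ OddHC.ht ((.nil : BinaryTree Unit) △ S') := by
    rw [ht_node, n0]
    omega
  have hr : 2 ≤ OddHC.ht (app S' ((.nil : BinaryTree Unit) △ .nil)) := by
    rw [ht_app]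
    omega
  have k0 : ∀ {t : BinaryTree Unit}, y.1 = t → OddHC.ht t = OddHC.ht S + 2 := by
    rintro t rfl
    exact hh
  rcases h' with h' | h'
  · rcases h'.cases9 hB with e | e | e | e | e | e | ⟨v, e, e1⟩ | ⟨⟨Z, e⟩, _⟩ | ⟨⟨Z, e⟩, _⟩
    · left
      have := k0 e
      rw [ht_app, ht_node, ht_node, n0] at this
      exact ⟨by omega, Or.inl e⟩
    · left
      have := k0 e
      rw [ht_node, ht_node, n0] at this
      exact ⟨by omega, Or.inr e⟩
    · exact absurd (up _ (bead _) hl) (no e)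
    · right
      have := k0 e
      rw [ht_node, ht_node, n0] at this
      exact ⟨by omega, Or.inl e⟩
    · exact absurd (up _ (beadr _) hr) (no e)
    · refine absurd ?_ (no e)
      rw [cont_node]
      exact Multiset.mem_add.2 (Or.inr (bead _))
    · -- word 6
      right
      obtain ⟨i, hi, e2, _⟩ := h'.words _ hB
      have hc : OddHC.cont y.1 = raise (raise (OddHC.cont S')) := by
        rw [← e1, H1.cont_TT, H1.cont_TT, e, cont_node, cont_node, cont_nil, add_zero, add_zero]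
      have hh' : OddHC.ht S' = OddHC.ht S := by
        have : OddHC.ht y.1 = OddHC.ht S' + 2 := by
          rw [ht_eq, hc, sup_raise, sup_raise, ← ht_eq]
        omega
      refine ⟨hh', ?_⟩
      interval_cases i
      · exfalso
        have := k0 (t := app S' ((.nil △ .nil) △ .nil)) e2
        rw [ht_app, ht_node, ht_node, n0] at this
        omega
      · exfalso
        have := k0 (t := (.nil △ .nil) △ S') e2
        rw [ht_node, ht_node, n0] at this
        omega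
      · exact absurd (up _ (bead _) hl) (no e2)
      · exact Or.inl e2
      · exact absurd (up _ (beadr _) hr) (no e2)
      · refine absurd ?_ (no (t := S' △ (.nil △ .nil)) e2)
        rw [cont_node]
        exact Multiset.mem_add.2 (Or.inr (bead _))
      · exact Or.inr (Or.inl e2)
      · exact absurd (beadr _) (no (t := app (xT S') (.nil △ .nil)) e2)
      · exact absurd (bead _) (no (t := .nil △ xT S') e2)
    · exact absurd (beadr _) (no e)
    · exact absurd (bead _) (no e)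
  · rcases JVM.cases9 h' hB with e | e | e | e | e | e | ⟨⟨v, e1, e2⟩, e⟩ | ⟨Z, e⟩ | ⟨Z, e⟩
    · left
      have := k0 e
      rw [ht_node, ht_node, n0] at this
      exact ⟨by omega, Or.inr e⟩
    · left
      have := k0 e
      rw [ht_app, ht_node, ht_node, n0] at this
      exact ⟨by omega, Or.inl e⟩
    · exact absurd (up _ (beadr _) hr) (no e)
    · right
      have := k0 e
      rw [ht_node, ht_node, n0] at this
      exact ⟨by omega, Or.inl e⟩
    · exact absurd (up _ (bead _) hl) (no e)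
    · exact absurd (bead _) (no e)
    · right
      have hc : OddHC.cont y.1 = raise (raise (OddHC.cont S')) := by
        have e3 : OddHC.cont y.1 = OddHC.cont v.1 := by
          rw [← e2, H1.cont_TT, H1.cont_TT]
        rw [e3, e1, cont_node, cont_node, cont_nil, add_zero, add_zero]
      have : OddHC.ht y.1 = OddHC.ht S' + 2 := by
        rw [ht_eq, hc, sup_raise, sup_raise, ← ht_eq]
      exact ⟨by omega, Or.inr (Or.inr e)⟩
    · exact absurd (bead _) (no e)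
    · exact absurd (beadr _) (no e)

/-- **I-JVm-JV, I-JVm-JVm**: only inner word 3, `T^-1(((S)))` -/
theorem Is9M.inner_JV (h : Is9M .nil .nil S F g)
    (h' : Is9 .nil .nil S' F' g' ∨ Is9M .nil .nil S' F' g')
    (h3 : 3 ≤ OddHC.ht S) (h3' : 3 ≤ OddHC.ht S')
    (h1 : (OddHC.cont S).count 1 = 0) (h1' : (OddHC.cont S').count 1 = 0) :
    ∀ p ∈ g.arcs, ∀ w ∈ innA p, w ∈ g'.B → Iv S 3 w ∧
      ((OddHC.ht S' = OddHC.ht S + 2 ∧ (w.1 = app S' ((.nil △ .nil) △ .nil) ∨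
        w.1 = (.nil △ .nil) △ S')) ∨
      (OddHC.ht S' = OddHC.ht S ∧ (w.1 = (S' △ .nil) △ .nil ∨ w.1 = xT S' △ .nil ∨
        w.1 = xTM S' △ .nil))) := by
  intro p hp w hw hB
  have hn : ∀ v ∈ g'.B, NJS v := by
    rcases h' with h' | h'
    · exact h'.njs h3' h1'
    · exact h'.njs h3' h1'
  rcases JVM.nis3 h h3 h1 p hp w hw with h4 | h4
  · exact absurd hB (h4.not_mem hn)
  · exact ⟨h4, JVM.meet h' h3 h3' h1 h1' (JVM.cont3 h4) hB⟩

/-- **I-JV-JVm**: only inner word 3, `T(((S)))` -/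
theorem Is9.inner_JVm (h : Is9 .nil .nil S F g) (h' : Is9M .nil .nil S' F' g')
    (h3 : 3 ≤ OddHC.ht S) (h3' : 3 ≤ OddHC.ht S')
    (h1 : (OddHC.cont S).count 1 = 0) (h1' : (OddHC.cont S').count 1 = 0) :
    ∀ p ∈ g.arcs, ∀ w ∈ innA p, w ∈ g'.B → w = TT p.1 ∧ p.1.1 = (S △ .nil) △ .nil ∧
      ((OddHC.ht S' = OddHC.ht S + 2 ∧ (w.1 = app S' ((.nil △ .nil) △ .nil) ∨
        w.1 = (.nil △ .nil) △ S')) ∨
      (OddHC.ht S' = OddHC.ht S ∧ (w.1 = (S' △ .nil) △ .nil ∨ w.1 = xTM S' △ .nil ∨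
        w.1 = xT S' △ .nil))) := by
  intro p hp w hw hB
  rcases h.nis h3 h1 p hp w hw with h4 | ⟨_, e, hx⟩
  · exact absurd hB (h4.not_mem (h'.njs h3' h1'))
  refine ⟨e, hx, ?_⟩
  have c0 : OddHC.cont w.1 = raise (raise (OddHC.cont S)) := by
    rw [e]
    exact JV.cont3 hx
  rcases JVM.meet (Or.inr h') h3 h3' h1 h1' c0 hB with h5 | ⟨h5, h6 | h6 | h6⟩
  · exact Or.inl h5
  · exact Or.inr ⟨h5, Or.inl h6⟩
  · exact Or.inr ⟨h5, Or.inr (Or.inr h6)⟩
  · exact Or.inr ⟨h5, Or.inr (Or.inl h6)⟩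

end Pool.OddHC
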