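import Pool.Agent.Work.MP_8f87b2_h54.JVmi
import Pool.Agent.Work.MP_8f87b2_h37.JVi2

/-!
MP_8f87b2_co: the inner words of the mirrored nine-word pair gadget (`Is9M` with empty `P`, `Q`, `S` any tree without part 1
of height at least 3) against the plain types L, S5, E, K, Km, Cr, Cl.
-/

set_option autoImplicit false

namespace Pool.OddHC

open Finset Equiv BinaryTree Pool.Agent.Work.MP_8f87b2_co

namespace JVM

open SRun H1 JVI

variable {k : ℕ} {S : BinaryTree Unit}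

/-- shape of an inner word -/
structure ShM (S : BinaryTree Unit) (x : X k) : Prop where
  st : (∃ v, wd x.1 = true :: true :: true :: v) ∨ ∃ v, wd x.1 = true :: true :: false :: false :: v
  en : (∃ v, wd x.1 = v ++ [false, false, false]) ∨ ∃ v, wd x.1 = v ++ [true, true, false, false]
  sr : (D2 (wd x.1) ∧ ∃ z : X k, z.1 = (Tsq.mir S △ .nil) △ .nil ∧ x = Tsq.mirX (TT z)) ∨
    (∃ u l, SR (wd x.1) u true false (false :: l) ∧ u.count false + 2 ≤ u.count true) ∨
    ∃ u l, SR (wd x.1) u false true l ∧ 3 ≤ u.length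

theorem ShM.of {i : ℕ} {x : X k} (h : Iv S i x) (h1 : 1 ∉ OddHC.cont S) (h3 : 3 ≤ OddHC.ht S) :
    ShM S x := by
  obtain ⟨a, b, hf, hs, e⟩ := h.sd h1 h3
  have hm : ∃ m, mid9 i = true :: true :: m := by
    rcases h.hi with rfl | rfl | rfl
    · exact ⟨_, rfl⟩
    · exact ⟨_, rfl⟩
    · exact ⟨_, rfl⟩
  refine ⟨?_, ?_, ?_⟩
  · rcases hs.up with rfl | ⟨r, hr⟩ | ⟨r, hr⟩
    · left
      obtain ⟨m, hm⟩ := hm
      rw [e, hm]
      exact ⟨_, rfl⟩
    · left
      rw [e, hr]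
      simp [List.replicate]
    · right
      rw [e, hr]
      simp [List.replicate]
  · rcases hs.dn with ⟨r, hr⟩ | ⟨r, hr⟩
    · left
      rw [e, hr]
      exact ⟨a.reverse ++ mid9 i ++ r.reverse, by simp [List.replicate]⟩
    · right
      rw [e, hr]
      exact ⟨a.reverse ++ mid9 i ++ r.reverse, by simp [List.replicate]⟩
  · obtain ⟨⟨x0, r, hr⟩, _⟩ := hs.brev
    obtain ⟨_, ⟨r', hr'⟩⟩ := hs.arev
    obtain ⟨z, hz, hx⟩ := h.te
    have htop := hf.top
    have hh : Tsq.ht (Tsq.mir S) = OddHC.ht S := by rw [H1.ht_eq, ht_mir]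
    rcases h.hi with rfl | rfl | rfl
    · exact Or.inl ⟨h.d2 h1 h3, z, hz, hx⟩
    · refine Or.inr (Or.inl ⟨a.reverse ++ [true, true] ++ [false, false], x0 :: r, SR.mk'
        (u' := a.reverse ++ [true, true] ++ [false]) (z := false) ?_ ((hs.da.rev.app
        (D2.two true _ D2.nil)).app (D2.two false _ D2.nil)) (by simp) (by simp) (by simp), ?_⟩)
      · rw [e, hr]
        simp [mid9]
      · simp
        omega
    · refine Or.inr (Or.inr ⟨a.reverse ++ [true, true], false :: b.reverse, SR.mk'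
        (u' := a.reverse ++ [true]) (z := true) ?_ (hs.da.rev.app (D2.two true _ D2.nil)) (by simp)
        (by simp) (by simp), ?_⟩)
      · rw [e]
        simp [mid9]
      · rw [hr']
        simp

/-! ### Words which are not inner words -/

variable {x : X k}

/-- not `() Y` -/
theorem ShM.not_first (h : ShM S x) {Y : BinaryTree Unit} : x.1 ≠ .nil △ Y := by
  intro e
  have e1 : wd x.1 = true :: false :: wd Y := by rw [e, wd_node]; simp [wd]
  rcases h.st with ⟨v, hv⟩ | ⟨v, hv⟩ <;> rw [e1] at hv <;> simp at hv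

/-- not `Y ()` -/
theorem ShM.not_last (h : ShM S x) {Y : BinaryTree Unit} : x.1 ≠ app Y (.nil △ .nil) := by
  intro e
  have e1 : wd x.1 = wd Y ++ [true, false] := by rw [e, wd_app, wd_node]; simp [wd]
  rcases h.en with ⟨v, hv⟩ | ⟨v, hv⟩ <;> rw [e1] at hv <;>
    · have h5 := congrArg List.reverse hv
      simp at h5

/-- not `P () Z` -/
theorem ShM.not_bead (h : ShM S x) {P Z : BinaryTree Unit} (hP : hg 2 P) : x.1 ≠ app P (.nil △ Z) := by
  intro e
  have h' : SR (wd x.1) (wd P) true false (wd Z) := ⟨by rw [e, wd_app, wd_node]; simp [wd], D2_hg hP,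
    last_hg hP, by simp⟩
  rcases h.sr with ⟨h1, -⟩ | ⟨u, l, h1, -⟩ | ⟨u, l, h1, -⟩
  · exact h'.not_D2 h1
  · have e2 := (h1.uniq h').2.2.2
    have h6 := wd_take Z 1
    rw [← e2] at h6
    simp at h6
  · exact absurd (h1.uniq h').2.1 (by simp)

/-- not `P (Q () Z) Y` -/
theorem ShM.not_bead2 (h : ShM S x) {P Q Z Y : BinaryTree Unit} (hP : hg 2 P) (hQ : Gd Q) :
    x.1 ≠ app P (app Q (.nil △ Z) △ Y) := by
  intro e
  have h' : SR (wd x.1) (wd P ++ (true :: wd Q)) true false (wd Z ++ false :: wd Y) := by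
    refine ⟨?_, (D2_hg hP).app hQ.cons, ?_, by simp⟩
    · rw [e, wd_app, wd_node, wd_app, wd_node]
      simp [wd]
    · obtain ⟨v, hv⟩ := hQ.stop
      rw [hv, show wd P ++ (true :: ((v ++ [false]) ++ [false])) =
        (wd P ++ (true :: (v ++ [false]))) ++ [false] by simp, List.getLastD_concat]
      simp
  rcases h.sr with ⟨h1, -⟩ | ⟨u, l, h1, h2⟩ | ⟨u, l, h1, -⟩
  · exact h'.not_D2 h1
  · have e2 := (h1.uniq h').1
    have cP := wd_counts P
    have cQ := wd_counts Q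
    rw [e2, List.count_append, List.count_append] at h2
    simp at h2
    omega
  · exact absurd (h1.uniq h').2.1 (by simp)

/-- `T^-1(((S))) ≠ t` -/
def N3M (k : ℕ) (S t : BinaryTree Unit) : Prop :=
  ∀ z : X k, z.1 = (Tsq.mir S △ .nil) △ .nil → (Tsq.mirX (TT z)).1 ≠ t

theorem ShM.not_D2 (h : ShM S x) {t : BinaryTree Unit} (ht : D2 (wd t)) (hn : N3M k S t) : x.1 ≠ t := by
  intro e
  rcases h.sr with ⟨-, z, hz, rfl⟩ | ⟨u, l, h1, -⟩ | ⟨u, l, h1, -⟩
  · exact hn z hz e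
  · rw [← e] at ht
    exact h1.not_D2 ht
  · rw [← e] at ht
    exact h1.not_D2 ht

end JVM

open JVI JVM SRun H1

variable {k : ℕ} {S : BinaryTree Unit} {F F' : Set (Cyc k)} {g g' : DG k}

theorem Is9M.sh (h : Is9M .nil .nil S F g) (h1 : 1 ∉ OddHC.cont S) (h3 : 3 ≤ OddHC.ht S) {p : X k × X k}
    (hp : p ∈ g.arcs) {x : X k} (hx : x ∈ innA p) : ShM S x := by
  obtain ⟨i, hi⟩ := h.iv p hp x hx
  exact ShM.of hi h1 h3

/-- **I-JVm-L** (general: `()^q (R) ()^p` and its two new words) -/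
theorem Is9M.inner_L (h : Is9M .nil .nil S F g) (h1 : 1 ∉ OddHC.cont S) (h3 : 3 ≤ OddHC.ht S)
    {a b : ℕ} {R' : BinaryTree Unit} (h' : IsTri (lp (b + 1)) R' (lp (a + 1)) F' g') :
    ∀ p ∈ g.arcs, ∀ w ∈ innA p, w ∉ g'.B := by
  intro p hp x hx hw
  have hs := h.sh h1 h3 hp hx
  have hl : ∀ n, lp (n + 1) = app (lp n) (.nil △ .nil) := by
    intro n
    induction n with
    | zero => rfl
    | succ n ih =>
      change BinaryTree.nil △ lp (n + 1) = _
      conv_lhs => rw [ih]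
      rfl
  rcases h'.words _ hw with e | ⟨_, e | e⟩
  · exact hs.not_first (Y := w1 (lp b) R' (lp (a + 1))) e
  · have e1 : w1 R' (lp (a + 1)) (lp (b + 1)) =
        app (app R' (lp (a + 1) △ lp b)) (.nil △ .nil) := by
      unfold w1
      rw [hl b, app_assoc]
      rfl
    rw [e1] at e
    exact hs.not_last e
  · exact hs.not_first (Y := w1 (lp a) (lp (b + 1)) R') e

theorem Is9M.inner_TyL (h : Is9M .nil .nil S F g) (h1 : 1 ∉ OddHC.cont S) (h3 : 3 ≤ OddHC.ht S)
    (h' : TyL F' g') : ∀ p ∈ g.arcs, ∀ w ∈ innA p, w ∉ g'.B := by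
  obtain ⟨R', e, -, -, -, -, ht⟩ := h'
  exact h.inner_L (a := 0) (b := 0) h1 h3 ht

/-- **I-JVm-E**: E triples whose host is not an inner word -/
theorem Is9M.inner_E' (h : Is9M .nil .nil S F g) (h1 : 1 ∉ OddHC.cont S) (h3 : 3 ≤ OddHC.ht S)
    {Y : BinaryTree Unit} (h' : IsTri .nil Y .nil F' g')
    (hY : ∀ p ∈ g.arcs, ∀ w ∈ innA p, w.1 ≠ Y △ .nil) : ∀ p ∈ g.arcs, ∀ w ∈ innA p, w ∉ g'.B := by
  intro p hp x hx hw
  have hs := h.sh h1 h3 hp hx
  rcases h'.words _ hw with e | ⟨_, e | e⟩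
  · exact hY p hp x hx e
  · exact hs.not_last (Y := Y) e
  · exact hs.not_first (Y := Y) e

/-- **I-JVm-S5** -/
theorem Is9M.inner_S5 (h : Is9M .nil .nil S F g) (h1 : 1 ∉ OddHC.cont S) (h3 : 3 ≤ OddHC.ht S)
    (h' : TyS5 F' g') : ∀ p ∈ g.arcs, ∀ w ∈ innA p, w ∉ g'.B := by
  obtain ⟨s, n, hs3, hn, ht⟩ := h'
  intro p hp x hx hw
  have hs := h.sh h1 h3 hp hx
  have hl : ∀ n, lp (n + 1) = app (lp n) (.nil △ .nil) := by
    intro n
    induction n with
    | zero => rfl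
    | succ n ih =>
      change BinaryTree.nil △ lp (n + 1) = _
      conv_lhs => rw [ih]
      rfl
  rcases ht with ht | ht | ht
  · rcases ht.words _ hw with e | ⟨_, e | e⟩
    · exact hs.not_first (Y := w1 (lp (n + 1)) (ch s) .nil) e
    · -- `[s] () ()^(n+2)`
      have e1 : w1 (ch s) .nil (lp (n + 2)) = app (app (ch s) (.nil △ lp (n + 1))) (.nil △ .nil) := by
        unfold w1
        rw [hl (n + 1), app_assoc]
        rfl
      rw [e1] at e
      exact hs.not_last e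
    · -- `(()^(n+2)) [s]`
      have e1 : wd x.1 = true :: true :: false :: true :: false :: (wd (lp n) ++ false :: wd (ch s)) := by
        rw [e]
        change wd (lp (n + 2) △ ch s) = _
        rw [wd_node]
        change true :: (wd (.nil △ (.nil △ lp n)) ++ false :: wd (ch s)) = _
        rw [wd_node, wd_node]
        simp [wd]
      rcases hs.st with ⟨v, hv⟩ | ⟨v, hv⟩ <;> rw [e1] at hv <;> simp at hv
  · rcases ht.words _ hw with e | ⟨_, e | e⟩
    · -- `([s]) ()^(n+2)`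
      have e1 : w1 .nil (ch s) (lp (n + 2)) = app (ch s △ lp (n + 1)) (.nil △ .nil) := by
        unfold w1
        rw [hl (n + 1)]
        rfl
      rw [e1] at e
      exact hs.not_last e
    · -- `[s] (()^(n+2))`
      have e1 : wd x.1 = (wd (ch s) ++ (true :: wd (lp n))) ++ [true, false, true, false, false] := by
        rw [e]
        change wd (app (ch s) (lp (n + 2) △ .nil)) = _
        rw [wd_app, wd_node, hl (n + 1), hl n, wd_app, wd_app]
        simp [wd]
      rcases hs.en with ⟨v, hv⟩ | ⟨v, hv⟩ <;> rw [e1] at hv <;>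
        · have h5 := congrArg List.reverse hv
          simp at h5
    · exact hs.not_first (Y := w1 (lp (n + 1)) .nil (ch s)) e
  · rcases ht.words _ hw with e | ⟨_, e | e⟩
    · exact hs.not_first (Y := w1 .nil (app (ch s) (lp n)) (ch 2)) e
    · have e1 : w1 (app (ch s) (lp n)) (ch 2) (lp 1) =
          app (app (app (ch s) (lp n)) (ch 2 △ .nil)) (.nil △ .nil) :=
        (app_assoc (app (ch s) (lp n)) (ch 2 △ .nil) (.nil △ .nil)).symm
      rw [e1] at e
      exact hs.not_last e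
    · -- `[2] .. ` : `(()) (()) [s] ()^n`
      obtain ⟨m, rfl⟩ : ∃ m, n = m + 1 := ⟨n - 1, by omega⟩
      have e1 : w1 (ch 2) (lp 1) (app (ch s) (lp (m + 1))) =
          app (app (ch 2) (lp 1 △ app (ch s) (lp m))) (.nil △ .nil) := by
        unfold w1
        rw [hl m, app_assoc]
        change app (ch 2) (lp 1 △ app (ch s) (app (lp m) (.nil △ .nil))) = app (ch 2) (lp 1 △ app (app (ch s) (lp m)) (.nil △ .nil))
        rw [app_assoc]
      rw [e1] at e
      exact hs.not_last e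

/-- **I-JVm-K'** (`()(R)`, `R()()`, `(())R`) with `R = P ()^m`, `P` without part 1: only `T^-1(((S))) = (())P` for `m = 0` -/
theorem Is9M.inner_Km (h : Is9M .nil .nil S F g) (h1 : 1 ∉ OddHC.cont S) (h3 : 3 ≤ OddHC.ht S)
    {P : BinaryTree Unit} {m : ℕ} (hP : hg 2 P) (h' : TyK' (app P (lp m)) F' g')
    (hn : m = 0 → N3M k S ((.nil △ .nil) △ P)) : ∀ p ∈ g.arcs, ∀ w ∈ innA p, w ∉ g'.B := by
  intro p hp x hx hw
  have hs := h.sh h1 h3 hp hx
  rcases IsTri.words h' _ hw with e | ⟨_, e | e⟩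
  · exact hs.not_first (Y := app P (lp m) △ .nil) e
  · have e1 : w1 (app P (lp m)) .nil (.nil △ .nil) =
        app (app (app P (lp m)) (.nil △ .nil)) (.nil △ .nil) :=
      (app_assoc (app P (lp m)) (.nil △ .nil) (.nil △ .nil)).symm
    rw [e1] at e
    exact hs.not_last e
  · have e1 : w1 .nil (.nil △ .nil) (app P (lp m)) = app ((.nil △ .nil) △ P) (lp m) := rfl
    rw [e1] at e
    have hP' : hg 2 ((.nil △ .nil) △ P) := ⟨Or.inl rfl, hP⟩
    rcases m with _ | m
    · rw [show lp 0 = .nil from rfl, app_nil] at e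
      exact hs.not_D2 (D2_hg hP') (hn rfl) e
    · exact hs.not_bead (Z := lp m) hP' e

/-- **I-JVm-K** (`(R)()`, `R(())`, `()()R`), `R = P () Z`: no condition -/
theorem Is9M.inner_K1 (h : Is9M .nil .nil S F g) (h1 : 1 ∉ OddHC.cont S) (h3 : 3 ≤ OddHC.ht S)
    {P Z : BinaryTree Unit} (hP : hg 2 P) (h' : TyK (app P (.nil △ Z)) F' g') :
    ∀ p ∈ g.arcs, ∀ w ∈ innA p, w ∉ g'.B := by
  intro p hp x hx hw
  have hs := h.sh h1 h3 hp hx
  rcases IsTri.words h' _ hw with e | ⟨_, e | e⟩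
  · exact hs.not_last (Y := app P (.nil △ Z) △ .nil) e
  · have e1 : w1 (app P (.nil △ Z)) (.nil △ .nil) .nil =
        app P (.nil △ app Z ((.nil △ .nil) △ .nil)) := by
      unfold w1
      rw [app_assoc]
      rfl
    rw [e1] at e
    exact hs.not_bead hP e
  · exact hs.not_first (Y := .nil △ app P (.nil △ Z)) e

/-- **I-JVm-K**, `R` without part 1: only `T^-1(((S))) = R(())` -/
theorem Is9M.inner_K2 (h : Is9M .nil .nil S F g) (h1 : 1 ∉ OddHC.cont S) (h3 : 3 ≤ OddHC.ht S)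
    {P : BinaryTree Unit} (hP : hg 2 P) (h' : TyK P F' g') (hn : N3M k S (app P ((.nil △ .nil) △ .nil))) :
    ∀ p ∈ g.arcs, ∀ w ∈ innA p, w ∉ g'.B := by
  intro p hp x hx hw
  have hs := h.sh h1 h3 hp hx
  rcases IsTri.words h' _ hw with e | ⟨_, e | e⟩
  · exact hs.not_last (Y := P △ .nil) e
  · have h5 : hg 2 ((.nil △ .nil) △ .nil) := ⟨Or.inl rfl, trivial⟩
    exact hs.not_D2 (D2_hg (hg_app hP h5)) hn e
  · exact hs.not_first (Y := .nil △ P) e

/-- **I-JVm-Cr** (`(R)[c]`, `R[c+1]`, `[c]()R`), `R = P ()^m`: only `T^-1(((S)))` for `m = 0` -/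
theorem Is9M.inner_Cr (h : Is9M .nil .nil S F g) (h1 : 1 ∉ OddHC.cont S) (h3 : 3 ≤ OddHC.ht S)
    {P : BinaryTree Unit} {c m : ℕ} (hP : Gd P) (hc : 2 ≤ c) (h' : TyC c (app P (lp m)) F' g')
    (hn : m = 0 → N3M k S (P △ ch c) ∧ N3M k S (app P (ch (c + 1)))) :
    ∀ p ∈ g.arcs, ∀ w ∈ innA p, w ∉ g'.B := by
  intro p hp x hx hw
  have hs := h.sh h1 h3 hp hx
  rcases IsTri.words h' _ hw with e | ⟨_, e | e⟩
  · have e1 : w1 .nil (app P (lp m)) (ch c) = app P (lp m) △ ch c := rfl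
    rw [e1] at e
    rcases m with _ | m
    · rw [show lp 0 = .nil from rfl, app_nil] at e
      have h5 : hg 2 (P △ ch c) := ⟨Or.inr ⟨hP.ne, hP.hg⟩, hg_ch hc⟩
      exact hs.not_D2 (D2_hg h5) (hn rfl).1 e
    · exact hs.not_bead2 (P := .nil) (Z := lp m) (Y := ch c) trivial hP e
  · have e1 : w1 (app P (lp m)) (ch c) .nil = app (app P (lp m)) (ch (c + 1)) := rfl
    rw [e1] at e
    rcases m with _ | m
    · rw [show lp 0 = .nil from rfl, app_nil] at e
      exact hs.not_D2 (D2_hg (hg_app hP.hg (hg_ch (by omega)))) (hn rfl).2 e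
    · rw [app_assoc] at e
      exact hs.not_bead (Z := app (lp m) (ch (c + 1))) hP.hg e
  · exact hs.not_bead (Z := app P (lp m)) (hg_ch hc) e

/-- **I-JVm-Cl** (`[c](R)`, `R()[c]`, `[c+1]R`), `R = P ()^m`: only `T^-1(((S)))` for `m = 0` -/
theorem Is9M.inner_Cl (h : Is9M .nil .nil S F g) (h1 : 1 ∉ OddHC.cont S) (h3 : 3 ≤ OddHC.ht S)
    {P : BinaryTree Unit} {c m : ℕ} (hP : Gd P) (hc : 2 ≤ c) (h' : TyC' c (app P (lp m)) F' g')
    (hn : m = 0 → N3M k S (app (ch c) (P △ .nil)) ∧ N3M k S (ch c △ P)) :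
    ∀ p ∈ g.arcs, ∀ w ∈ innA p, w ∉ g'.B := by
  intro p hp x hx hw
  have hs := h.sh h1 h3 hp hx
  rcases IsTri.words h' _ hw with e | ⟨_, e | e⟩
  · have e1 : w1 (ch c) (app P (lp m)) .nil = app (ch c) (app P (lp m) △ .nil) := rfl
    rw [e1] at e
    rcases m with _ | m
    · rw [show lp 0 = .nil from rfl, app_nil] at e
      have h5 : hg 2 (P △ .nil) := ⟨Or.inr ⟨hP.ne, hP.hg⟩, trivial⟩
      exact hs.not_D2 (D2_hg (hg_app (hg_ch hc) h5)) (hn rfl).1 e
    · exact hs.not_bead2 (Z := lp m) (Y := .nil) (hg_ch hc) hP e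
  · have e1 : w1 (app P (lp m)) .nil (ch c) = app (app P (lp m)) (.nil △ ch c) := rfl
    rw [e1] at e
    rcases m with _ | m
    · rw [show lp 0 = .nil from rfl, app_nil] at e
      exact hs.not_bead hP.hg e
    · rw [app_assoc] at e
      exact hs.not_bead (Z := app (lp m) (.nil △ ch c)) hP.hg e
  · have e1 : w1 .nil (ch c) (app P (lp m)) = app (ch c △ P) (lp m) := rfl
    rw [e1] at e
    have hP' : hg 2 (ch c △ P) := ⟨(hg_ch (c := c + 1) (by omega)).1, hP.hg⟩
    rcases m with _ | m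
    · rw [show lp 0 = .nil from rfl, app_nil] at e
      exact hs.not_D2 (D2_hg hP') (hn rfl).2 e
    · exact hs.not_bead (Z := lp m) hP' e

end Pool.OddHC
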