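import Pool.Agent.Work.MP_8f87b2_h99.Ty9
import Pool.Agent.Work.MP_8f87b2_h68.JMi

/-!
# MP_8f87b2_co, inner words of the mirrored nine-word gadgets (`Is9M`, `P = Q = e`)

`Iv S i y`: `y` is the inner word of the arc at word `i = 3, 4, 5` of the mirrored gadget at `S`:
`rev a 11100 rev b`, `rev a 11001 rev b`, `rev a 11010 rev b`, where `mir S = a 1 b` (first maximum).
-/

set_option autoImplicit false

namespace Pool.OddHC

open Finset Equiv BinaryTree Pool.Agent.Work.MP_8f87b2_co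

variable {k : ℕ} {S : BinaryTree Unit} {F F' : Set (Cyc k)} {g g' : DG k} {w : ℕ → X k}

/-- the three inner words of a right nine-word gadget -/
theorem D9.inn_wd (h : D9 .nil .nil S w) {a b : List Bool} (hf : H1.FM S a b) :
    wd (TT (w 3)).1 = b.map not ++ (true :: true :: false :: false :: false :: a.map not) ∧
    wd (TT (w 4)).1 = b.map not ++ (false :: true :: true :: false :: false :: a.map not) ∧
    wd (TT (w 5)).1 = b.map not ++ (true :: false :: true :: false :: false :: a.map not) := by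
  have n0 : Tsq.ht (BinaryTree.nil : BinaryTree Unit) = 0 := rfl
  have h3 := hf.pos
  refine ⟨?_, ?_, ?_⟩
  · have k1 := (hf.node (Z := .nil) (by rw [n0]; omega)).node (Z := .nil) (by rw [n0]; omega)
    have e : (w 3).1 = (S △ .nil) △ .nil := h.word 3 (by norm_num)
    rw [← e] at k1
    rw [k1.wdT]
    simp [wd]
  · have k1 := (hf.app_right (Z := .nil △ .nil) (by rw [Tsq.ht_node, n0]; omega)).node (Z := .nil)
      (by rw [n0]; omega)
    have e : (w 4).1 = (app S (.nil △ .nil)) △ .nil := h.word 4 (by norm_num)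
    rw [← e] at k1
    rw [k1.wdT]
    simp [wd]
  · have k1 := hf.node (Z := .nil △ .nil) (by rw [Tsq.ht_node, n0]; omega)
    have e : (w 5).1 = S △ (.nil △ .nil) := h.word 5 (by norm_num)
    rw [← e] at k1
    rw [k1.wdT]
    simp [wd]

/-- the middle part of an inner word -/
def mid9 (i : ℕ) : List Bool :=
  if i = 3 then [true, true, true, false, false] else
    if i = 4 then [true, true, false, false, true] else [true, true, false, true, false]

/-- the inner word of the arc at word `i` -/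
structure Iv (S : BinaryTree Unit) (i : ℕ) (y : X k) : Prop where
  hi : i = 3 ∨ i = 4 ∨ i = 5
  ex : ∃ a b, H1.FM (Tsq.mir S) a b ∧ wd y.1 = a.reverse ++ mid9 i ++ b.reverse
  cont : OddHC.cont y.1 = OddHC.cont (w9LM .nil .nil S (xTM S) i)
  te : ∃ z : X k, z.1 = w9L .nil .nil (Tsq.mir S) (xT (Tsq.mir S)) i ∧ y = Tsq.mirX (TT z)

theorem cont_mirX (x : X k) : OddHC.cont (Tsq.mirX x).1 = OddHC.cont x.1 := HM.cont_mir _

theorem Is9M.iv (h : Is9M .nil .nil S F g) : ∀ p ∈ g.arcs, ∀ y ∈ innA p, ∃ i, Iv S i y := by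
  obtain ⟨w, h1, rfl, rfl⟩ := h
  obtain ⟨n3, n4, n5⟩ := h1.inner
  have hm := h1.mir
  obtain ⟨a, c, hf, -⟩ := H1.FM.ex (S := Tsq.mir S) (mir_ne h1.ne)
  obtain ⟨e3, e4, e5⟩ := hm.inn_wd hf
  intro p hp y hy
  have hy' : y = TT p.1 := hy
  have hc : ∀ i < 9, OddHC.cont (Tsq.mirX (TT (Tsq.mirX (w i)))).1 =
      OddHC.cont (w9LM .nil .nil S (xTM S) i) := by
    intro i hi
    rw [cont_mirX, H1.cont_TT, cont_mirX, h1.word i hi]
  rcases hp with e | e | e
  · refine ⟨3, Or.inl rfl, ⟨a, _, hf, ?_⟩, ?_, ?_⟩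
    · rw [hy', e]
      change wd (TT (w 6)).1 = _
      rw [n3]
      change wd (Tsq.mir (TT (Tsq.mirX (w 3))).1) = _
      rw [Tsq.wd_mir, e3]
      simp [mid9, Function.comp_def]
    · rw [hy', e]
      change OddHC.cont (TT (w 6)).1 = _
      rw [n3]
      exact hc 3 (by norm_num)
    · exact ⟨_, hm.word 3 (by norm_num), by rw [hy', e]; exact n3⟩
  · refine ⟨4, Or.inr (Or.inl rfl), ⟨a, _, hf, ?_⟩, ?_, ?_⟩
    · rw [hy', e]
      change wd (TT (w 7)).1 = _
      rw [n4]
      change wd (Tsq.mir (TT (Tsq.mirX (w 4))).1) = _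
      rw [Tsq.wd_mir, e4]
      simp [mid9, Function.comp_def]
    · rw [hy', e]
      change OddHC.cont (TT (w 7)).1 = _
      rw [n4]
      exact hc 4 (by norm_num)
    · exact ⟨_, hm.word 4 (by norm_num), by rw [hy', e]; exact n4⟩
  · refine ⟨5, Or.inr (Or.inr rfl), ⟨a, _, hf, ?_⟩, ?_, ?_⟩
    · rw [hy', e]
      change wd (TT (w 8)).1 = _
      rw [n5]
      change wd (Tsq.mir (TT (Tsq.mirX (w 5))).1) = _
      rw [Tsq.wd_mir, e5]
      simp [mid9, Function.comp_def]
    · rw [hy', e]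
      change OddHC.cont (TT (w 8)).1 = _
      rw [n5]
      exact hc 5 (by norm_num)
    · exact ⟨_, hm.word 5 (by norm_num), by rw [hy', e]; exact n5⟩

/-! ### The shape -/

namespace SRun

theorem D2.rev {l : List Bool} (h : D2 l) : D2 l.reverse := by
  induction h with
  | nil => exact D2.nil
  | two c l _ ih =>
    have e : (c :: c :: l).reverse = l.reverse ++ [c, c] := by simp
    rw [e]
    exact ih.app (D2.two c [] D2.nil)
  | three c l _ ih =>
    have e : (c :: c :: c :: l).reverse = l.reverse ++ [c, c, c] := by simp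
    rw [e]
    exact ih.app (D2.three c [] D2.nil)

theorem D2.tail3 {c : Bool} {l : List Bool} (h : D2 (c :: c :: c :: l)) : D2 (c :: c :: l) := by
  cases h with
  | two _ _ h =>
    cases l with
    | nil => exact (h.not_one).elim
    | cons d l =>
      have e := h.eq
      subst e
      exact h.cons
  | three _ _ h => exact D2.two c _ h

/-- the shape of the two sides of the first maximum, no part 1 -/
structure Sd (a b : List Bool) : Prop where
  a0 : ∃ a', a = true :: true :: a'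
  b0 : ∃ b', b = b' ++ [false, false, false] ∨ b = b' ++ [true, false, false]
  up : H1.Bef 2 a
  dn : H1.Aft' 2 b
  da : D2 a
  db : D2 b

theorem Gd.sd {R : BinaryTree Unit} (h : Gd R) (h3 : 3 ≤ Tsq.ht R) {a b : List Bool}
    (hf : H1.FM R a b) : Sd a b := by
  obtain ⟨a', b', ⟨fm, up, dn⟩⟩ := H1.hg_FMT (by norm_num) h.hg (by omega : 2 < Tsq.ht R)
  obtain ⟨rfl, rfl⟩ := hf.uniq fm
  have cR := wd_counts R
  have e := fm.eq
  have htop := fm.top
  have c1 := cR.1
  have c2 := cR.2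
  rw [e] at c1 c2
  simp only [List.count_append, List.count_cons] at c1 c2
  simp at c1 c2
  have hlb : b.count false ≤ b.length := List.count_le_length
  have hla : a.count true ≤ a.length := List.count_le_length
  have hb3 : 3 ≤ b.length := by omega
  obtain ⟨b', hb'⟩ : ∃ b', b = false :: b' := by
    rcases dn with ⟨r, hr⟩ | ⟨r, hr⟩
    · exact ⟨_, hr⟩
    · exact ⟨_, hr⟩
  have hD := h.d2
  rw [e, hb'] at hD
  obtain ⟨d1, d2⟩ := hD.cut (by simp) rfl
  rw [← hb'] at d2
  obtain ⟨v, hv⟩ := h.stop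
  obtain ⟨v', hv'⟩ := h.start
  have ha2 : 2 ≤ a.length := by omega
  refine ⟨?_, ?_, up, dn, ?_, d2⟩
  · rw [e] at hv'
    rcases a with _ | ⟨x, _ | ⟨y, a⟩⟩
    · simp at ha2
    · simp at ha2
    · simp only [List.cons_append, List.cons.injEq] at hv'
      exact ⟨a, by rw [hv'.1, hv'.2.1]⟩
  · -- the end of `b`
    rw [e] at hv
    obtain ⟨β, x, y, z, hβ⟩ : ∃ β x y z, b = β ++ [x, y, z] := by
      have hr : 3 ≤ b.reverse.length := by rw [List.length_reverse]; exact hb3
      rcases hbr : b.reverse with _ | ⟨z, _ | ⟨y, _ | ⟨x, r⟩⟩⟩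
      · rw [hbr] at hr; simp at hr
      · rw [hbr] at hr; simp at hr
      · rw [hbr] at hr; simp at hr
      · refine ⟨r.reverse, x, y, z, ?_⟩
        have := congrArg List.reverse hbr
        rw [List.reverse_reverse] at this
        rw [this]
        simp
    rw [hβ] at hv
    have e1 : (a ++ true :: (β ++ [x])) ++ [y, z] = v ++ [false, false] := by
      have : (a ++ true :: (β ++ [x])) ++ [y, z] = a ++ true :: (β ++ [x, y, z]) := by simp
      rw [this, hv]
      simp
    have e2 := (List.append_inj' e1 rfl).2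
    simp only [List.cons.injEq, and_true] at e2
    obtain ⟨rfl, rfl⟩ := e2
    cases x with
    | false => exact ⟨β, Or.inl hβ⟩
    | true => exact ⟨β, Or.inr hβ⟩
  · -- `D2 a`
    have d3 := d1.rev
    rw [List.reverse_append] at d3
    have e3 : ([true] : List Bool).reverse ++ a.reverse = true :: a.reverse := rfl
    rw [e3] at d3
    obtain ⟨r, hr⟩ : ∃ r, a.reverse = true :: true :: r := by
      rcases up with rfl | ⟨r, hr⟩ | ⟨r, hr⟩
      · exact ⟨[], rfl⟩
      · exact ⟨true :: r.reverse, by rw [hr]; simp [List.replicate]⟩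
      · exact ⟨false :: false :: r.reverse, by rw [hr]; simp [List.replicate]⟩
    rw [hr] at d3
    have d4 := d3.tail3
    rw [← hr] at d4
    have := d4.rev
    rwa [List.reverse_reverse] at this

theorem Sd.arev {a b : List Bool} (h : Sd a b) : (∃ r, a.reverse = true :: true :: r) ∧
    ∃ r, a.reverse = r ++ [true, true] := by
  constructor
  · rcases h.up with rfl | ⟨r, hr⟩ | ⟨r, hr⟩
    · exact ⟨[], rfl⟩
    · exact ⟨true :: r.reverse, by rw [hr]; simp [List.replicate]⟩
    · exact ⟨false :: false :: r.reverse, by rw [hr]; simp [List.replicate]⟩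
  · obtain ⟨a', ha⟩ := h.a0
    exact ⟨a'.reverse, by rw [ha]; simp⟩

theorem Sd.brev {a b : List Bool} (h : Sd a b) : (∃ x r, b.reverse = false :: false :: x :: r) ∧
    ∃ r, b.reverse = r ++ [false, false] := by
  constructor
  · obtain ⟨b', hb | hb⟩ := h.b0
    · exact ⟨false, b'.reverse, by rw [hb]; simp⟩
    · exact ⟨true, b'.reverse, by rw [hb]; simp⟩
  · rcases h.dn with ⟨r, hr⟩ | ⟨r, hr⟩
    · exact ⟨r.reverse ++ [false], by rw [hr]; simp [List.replicate]⟩
    · exact ⟨r.reverse ++ [true, true], by rw [hr]; simp [List.replicate]⟩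

end SRun

open SRun

theorem Gd_of_cont (h1 : 1 ∉ OddHC.cont S) (hS : S ≠ .nil) : Gd S := by
  refine ⟨H1.hg_of_cont le_rfl ?_, hS⟩
  intro x hx
  have h2 := cont_pos _ x hx
  have h3 : x ≠ 1 := by
    rintro rfl
    exact h1 hx
  omega

theorem Gd_mir (h1 : 1 ∉ OddHC.cont S) (hS : S ≠ .nil) : Gd (Tsq.mir S) :=
  Gd_of_cont (by rw [HM.cont_mir]; exact h1) (mir_ne hS)

variable {i : ℕ} {y : X k}

/-- the two sides for an inner word -/
theorem Iv.sd (h : Iv S i y) (h1 : 1 ∉ OddHC.cont S) (h3 : 3 ≤ OddHC.ht S) :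
    ∃ a b, H1.FM (Tsq.mir S) a b ∧ Sd a b ∧ wd y.1 = a.reverse ++ mid9 i ++ b.reverse := by
  obtain ⟨a, b, hf, e⟩ := h.ex
  have hS : S ≠ .nil := ne_of_ht (h := 2) (by omega)
  refine ⟨a, b, hf, (Gd_mir h1 hS).sd ?_ hf, e⟩
  rw [H1.ht_eq, ht_mir]
  exact h3

/-- an inner word starts with `11` -/
theorem Iv.start (h : Iv S i y) (h1 : 1 ∉ OddHC.cont S) (h3 : 3 ≤ OddHC.ht S) :
    ∃ v, wd y.1 = true :: true :: v := by
  obtain ⟨a, b, _, hs, e⟩ := h.sd h1 h3
  obtain ⟨⟨r, hr⟩, _⟩ := hs.arev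
  exact ⟨_, by rw [e, hr]; rfl⟩

/-- an inner word ends with `00` -/
theorem Iv.stop (h : Iv S i y) (h1 : 1 ∉ OddHC.cont S) (h3 : 3 ≤ OddHC.ht S) :
    ∃ v, wd y.1 = v ++ [false, false] := by
  obtain ⟨a, b, _, hs, e⟩ := h.sd h1 h3
  obtain ⟨_, ⟨r, hr⟩⟩ := hs.brev
  exact ⟨_, by rw [e, hr, ← List.append_assoc]⟩

theorem Iv.not_lf (h : Iv S i y) (h1 : 1 ∉ OddHC.cont S) (h3 : 3 ≤ OddHC.ht S)
    (Y : BinaryTree Unit) : y.1 ≠ .nil △ Y := by
  intro e
  obtain ⟨v, hv⟩ := h.start h1 h3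
  rw [e, wd_node] at hv
  simp [wd] at hv

theorem Iv.not_rf (h : Iv S i y) (h1 : 1 ∉ OddHC.cont S) (h3 : 3 ≤ OddHC.ht S)
    (Y : BinaryTree Unit) : y.1 ≠ app Y (.nil △ .nil) := by
  intro e
  obtain ⟨v, hv⟩ := h.stop h1 h3
  rw [e, wd_app, wd_node] at hv
  have := List.append_inj_right' hv rfl
  simp [wd] at this

/-- word 3: no run of length 1 -/
theorem Iv.d2 (h : Iv S 3 y) (h1 : 1 ∉ OddHC.cont S) (h3 : 3 ≤ OddHC.ht S) : D2 (wd y.1) := by
  obtain ⟨a, b, _, hs, e⟩ := h.sd h1 h3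
  rw [e]
  exact (hs.da.rev.app (D2.three true _ (D2.two false _ D2.nil))).app hs.db.rev

/-- words 4, 5: the shape IS -/
theorem Iv.is (h : Iv S i y) (hi : i ≠ 3) (h1 : 1 ∉ OddHC.cont S) (h3 : 3 ≤ OddHC.ht S) :
    IS (wd y.1) := by
  obtain ⟨a, b, _, hs, e⟩ := h.sd h1 h3
  obtain ⟨⟨x, r, hr⟩, _⟩ := hs.brev
  obtain ⟨_, ⟨r', hr'⟩⟩ := hs.arev
  rcases h.hi with rfl | rfl | rfl
  · exact absurd rfl hi
  · right
    refine ⟨a.reverse ++ [true, true] ++ [false, false], x, r, SR.mk' (u' := a.reverse ++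
      [true, true] ++ [false]) (z := false) ?_ ((hs.da.rev.app (D2.two true _ D2.nil)).app
      (D2.two false _ D2.nil)) (by simp) (by simp) (by simp), by simp⟩
    rw [e, hr]
    simp [mid9]
  · left
    refine ⟨a.reverse ++ [true, true], false :: b.reverse, SR.mk' (u' := a.reverse ++ [true])
      (z := true) ?_ (hs.da.rev.app (D2.two true _ D2.nil)) (by simp) (by simp) (by simp), ?_⟩
    · rw [e]
      simp [mid9]
    · rw [hr']
      simp

end Pool.OddHC
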